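import Pool.Agent.Helper21.DN.Stmts

set_option autoImplicit false

namespace Pool.Agent.Helper21.DN

universe u

theorem st_TWH : ST_TWH.{u} := by
  intro p hp k _ _ g d P _ β A e z ι D K M _ _ _ _ κ ρ w y T T' hw hy
  have hMp : CharP M p := charP_of_injective_algebraMap (algebraMap K M).injective p
  set cM : ZMod p →+* M := ZMod.castHom (dvd_refl p) M with hcM
  set κM : k →+* M := (algebraMap K M).comp κ with hκM
  have c1 : ∀ a : ZMod p, ((a.val : ℕ) : M) = cM a := fun a => by
    rw [hcM, ZMod.castHom_apply, ZMod.natCast_val]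
  have c2 : ∀ a : ZMod p, κM ((a.val : ℕ) : k) = cM a := fun a => by
    rw [map_natCast, c1]
  have c3 : ∀ (σ : M ≃ₐ[K] M) (a : ZMod p), σ (cM a) = cM a := fun σ a => by
    rw [← c1, map_natCast]
  have c4 : ∀ a : ZMod p, cM a ^ p = cM a := fun a => by
    rw [← map_pow, ZMod.pow_card]
  have c5 : ∀ x : M, x ^ p = x → ∃ a : ZMod p, cM a = x := fun x hx => by
    have h1 : x ∈ (⊥ : Subfield M) := (Subfield.mem_bot_iff_pow_eq_self M p).2 hx
    rw [← ZMod.fieldRange_castHom_eq_bot p] at h1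
    obtain ⟨a, ha⟩ := h1
    exact ⟨a, ha⟩
  set B : (M ≃ₐ[K] M) → Fin d → M := fun σ i => ∑ j, cM (A (ρ σ) i j) * σ (y j) - y i with hB
  have hx : ∀ i, y i ^ p - y i = algebraMap K M T * κM (e i) -
      (algebraMap K M T * w + algebraMap K M T') * κM (z i) := hy
  have hw' : ∀ σ : M ≃ₐ[K] M, σ w = w + κM (ι (ρ σ)) := hw
  have hfix : ∀ (σ : M ≃ₐ[K] M) (c : k), σ (κM c) = κM c := fun σ c => σ.commutes _
  have hsx : ∀ (σ : M ≃ₐ[K] M) i, σ (y i) ^ p - σ (y i) = algebraMap K M T * κM (e i) -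
      (algebraMap K M T * (w + κM (ι (ρ σ))) + algebraMap K M T') * κM (z i) := by
    intro σ i
    have h1 := congrArg σ (hx i)
    rw [map_sub, map_pow, map_sub, map_mul, map_mul, map_add, map_mul, hfix, hfix, hw',
      σ.commutes, σ.commutes] at h1
    exact h1
  have he : ∀ (x : P) i, ∑ j, cM (A x i j) * κM (e j) = κM (e i) + κM (ι x) * κM (z i) := by
    intro x i
    have h1 := congrArg κM (D.ez x i)
    rw [map_sum, map_add, map_mul] at h1
    rw [← h1]
    refine Finset.sum_congr rfl fun j _ => ?_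
    rw [map_mul, c2]
  have hz : ∀ (x : P) i, ∑ j, cM (A x i j) * κM (z j) = κM (z i) := by
    intro x i
    have h1 := congrArg κM (D.zz x i)
    rw [map_sum] at h1
    rw [← h1]
    refine Finset.sum_congr rfl fun j _ => ?_
    rw [map_mul, c2]
  have hBp : ∀ σ i, B σ i ^ p = B σ i := by
    intro σ i
    rw [← sub_eq_zero]
    have h1 : B σ i ^ p = ∑ j, cM (A (ρ σ) i j) * σ (y j) ^ p - y i ^ p := by
      rw [hB]
      simp only
      rw [sub_pow_char, sum_pow_char]
      congr 1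
      refine Finset.sum_congr rfl fun j _ => ?_
      rw [mul_pow, c4]
    have h2 : B σ i ^ p - B σ i =
        ∑ j, cM (A (ρ σ) i j) * (σ (y j) ^ p - σ (y j)) - (y i ^ p - y i) := by
      rw [h1, hB]
      simp only [mul_sub, Finset.sum_sub_distrib]
      ring
    rw [h2, hx]
    have h3 : ∑ j, cM (A (ρ σ) i j) * (σ (y j) ^ p - σ (y j)) =
        algebraMap K M T * ∑ j, cM (A (ρ σ) i j) * κM (e j) -
        (algebraMap K M T * (w + κM (ι (ρ σ))) + algebraMap K M T') *
          ∑ j, cM (A (ρ σ) i j) * κM (z j) := by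
      rw [Finset.mul_sum, Finset.mul_sum, ← Finset.sum_sub_distrib]
      refine Finset.sum_congr rfl fun j _ => ?_
      rw [hsx]
      ring
    rw [h3, he, hz]
    ring
  have hb : ∀ σ i, ∃ a : ZMod p, cM a = B σ i := fun σ i => c5 _ (hBp σ i)
  choose b hb using hb
  have hcoc : ∀ σ τ, b (σ * τ) = b σ + (A (ρ σ)).mulVec (b τ) := by
    intro σ τ
    funext i
    apply cM.injective
    rw [Pi.add_apply, map_add, hb, hb]
    have h1 : cM ((A (ρ σ)).mulVec (b τ) i) = ∑ l, cM (A (ρ σ) i l) * B τ l := by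
      rw [Matrix.mulVec, dotProduct, map_sum]
      refine Finset.sum_congr rfl fun l _ => ?_
      rw [map_mul, hb]
    have h2 : ∀ l, B τ l = ∑ j, cM (A (ρ τ) l j) * σ (τ (y j)) - σ (y l) := by
      intro l
      have h3 : σ (B τ l) = B τ l := by rw [← hb, c3]
      rw [← h3, hB]
      simp only
      rw [map_sub, map_sum]
      congr 1
      refine Finset.sum_congr rfl fun j _ => ?_
      rw [map_mul, c3]
    have h4 : B (σ * τ) i = ∑ j, (∑ l, cM (A (ρ σ) i l) * cM (A (ρ τ) l j)) * σ (τ (y j)) - y i := by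
      rw [hB]
      simp only
      congr 1
      refine Finset.sum_congr rfl fun j _ => ?_
      rw [map_mul, D.mul, Matrix.mul_apply, map_sum]
      simp only [map_mul]
      rfl
    have h5 : ∑ l, cM (A (ρ σ) i l) * B τ l =
        ∑ j, (∑ l, cM (A (ρ σ) i l) * cM (A (ρ τ) l j)) * σ (τ (y j)) -
          ∑ l, cM (A (ρ σ) i l) * σ (y l) := by
      have h6 : ∀ l, cM (A (ρ σ) i l) * B τ l =
          ∑ j, cM (A (ρ σ) i l) * cM (A (ρ τ) l j) * σ (τ (y j)) -
            cM (A (ρ σ) i l) * σ (y l) := by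
        intro l
        rw [h2, mul_sub, Finset.mul_sum]
        congr 1
        refine Finset.sum_congr rfl fun j _ => ?_
        ring
      rw [Finset.sum_congr rfl fun l _ => h6 l, Finset.sum_sub_distrib, Finset.sum_comm]
      congr 1
      refine Finset.sum_congr rfl fun j _ => ?_
      rw [Finset.sum_mul]
    rw [h1, h4, h5]
    have h7 : B σ i = ∑ l, cM (A (ρ σ) i l) * σ (y l) - y i := rfl
    rw [h7]
    ring
  have hmul : ∀ σ τ : M ≃ₐ[K] M, β (Multiplicative.ofAdd (b (σ * τ))) * ρ (σ * τ) =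
      (β (Multiplicative.ofAdd (b σ)) * ρ σ) * (β (Multiplicative.ofAdd (b τ)) * ρ τ) := by
    intro σ τ
    rw [hcoc, ofAdd_add, map_mul, ← D.conj, map_mul]
    group
  refine ⟨b, MonoidHom.mk' (fun σ => β (Multiplicative.ofAdd (b σ)) * ρ σ) hmul, ?_, fun σ => rfl⟩
  intro σ i
  rw [c1, hb, hB]
  simp only
  congr 1
  refine Finset.sum_congr rfl fun j _ => ?_
  rw [c1]

end Pool.Agent.Helper21.DN
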