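import Pool.Agent.Helper21.DN.Stmts

set_option autoImplicit false

namespace Pool.Agent.Helper21.DN

universe u

open scoped Classical in
theorem ph1_sum {G : Type u} [Group G] [Fintype G] (s : G → ℕ) (G1 : Subgroup G)
    (hout : ∀ g, g ∉ G1 → s g = 1) [Fintype G1] (u : ℝ) (hu : 1 ≤ u) :
    ∑ g ∈ Finset.univ.filter (fun g : G => g ≠ 1), min (s g : ℝ) u =
      ∑ h ∈ Finset.univ.filter (fun h : G1 => h ≠ 1), min (s (h : G) : ℝ) u +
        ((Fintype.card G : ℝ) - (Fintype.card G1 : ℝ)) := by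
  rw [Finset.sum_filter, Finset.sum_filter]
  rw [← Finset.sum_filter_add_sum_filter_not Finset.univ (fun g : G => g ∈ G1)]
  congr 1
  · rw [Finset.sum_subtype (p := fun g : G => g ∈ G1) (Finset.univ.filter (fun g : G => g ∈ G1))
      (by simp)]
    refine Finset.sum_congr rfl fun h _ => ?_
    by_cases h1 : h = 1
    · rw [if_neg (by simp [h1]), if_neg (by simp [h1])]
    · have h2 : (h : G) ≠ 1 := fun h3 => h1 (Subtype.ext h3)
      rw [if_pos h2, if_pos h1]
  · have h1 : ∀ g ∈ Finset.univ.filter (fun g : G => ¬ g ∈ G1),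
        (if g ≠ 1 then min (s g : ℝ) u else 0) = 1 := by
      intro g hg
      have h2 : g ∉ G1 := (Finset.mem_filter.1 hg).2
      have h3 : g ≠ 1 := fun h => h2 (h ▸ G1.one_mem)
      rw [if_pos h3, hout g h2, Nat.cast_one, min_eq_left hu]
    rw [Finset.sum_congr rfl h1, Finset.sum_const, nsmul_eq_mul, mul_one]
    have h4 : (Finset.univ.filter (fun g : G => g ∈ G1)).card = Fintype.card G1 := by
      rw [Fintype.card_subtype]
    have h5 := Finset.card_filter_add_card_filter_not (s := (Finset.univ : Finset G))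
      (fun g : G => g ∈ G1)
    rw [h4, Finset.card_univ] at h5
    rw [← h5]
    push_cast
    ring

theorem st_PH1 : ST_PH1.{u} := by
  intro G _ _ s hs G1 hout _ g hg
  have hg' : (g : G) ≠ 1 := fun h => hg (Subtype.ext h)
  have hu : (1 : ℝ) ≤ (s (g : G) : ℝ) := by exact_mod_cast hs.pos _ hg'
  unfold phi
  rw [ph1_sum s G1 hout _ hu]
  have h1 : (Fintype.card G1 : ℝ) * (G1.index : ℝ) = (Fintype.card G : ℝ) := by
    have := G1.card_mul_index
    rw [Nat.card_eq_fintype_card, Nat.card_eq_fintype_card] at this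
    exact_mod_cast this
  have h2 : (0 : ℝ) < (Fintype.card G : ℝ) := by exact_mod_cast Fintype.card_pos
  have h3 : (0 : ℝ) < (Fintype.card G1 : ℝ) := by exact_mod_cast Fintype.card_pos
  have h4 : (0 : ℝ) < (G1.index : ℝ) := by
    by_contra h
    have h5 : (G1.index : ℝ) ≤ 0 := not_lt.1 h
    have h6 : (Fintype.card G : ℝ) ≤ 0 := by
      rw [← h1]
      exact mul_nonpos_of_nonneg_of_nonpos h3.le h5
    linarith
  rw [← h1]
  field_simp
  have e : ∀ (d1 d2 : DecidablePred (fun h : G1 => h ≠ 1)),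
      ∑ h ∈ @Finset.filter _ (fun h : G1 => h ≠ 1) d1 Finset.univ, min (s (h : G) : ℝ) (s (g : G)) =
      ∑ h ∈ @Finset.filter _ (fun h : G1 => h ≠ 1) d2 Finset.univ,
        min (s (h : G) : ℝ) (s (g : G)) := by
    intro d1 d2
    rw [Subsingleton.elim d1 d2]
  rw [e _ (fun _ => Classical.propDecidable _)]
  conv_rhs => rw [e _ (fun _ => Classical.propDecidable _)]
  ring

end Pool.Agent.Helper21.DN
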